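import Pool.Agent.Helper608.WThreshold

open Pool.Agent.Helper608.WillMCF

namespace Pool.Agent.Results.MP_ec58cd_gt.DumbbellBound

/-- `C₂* ≤ 28.63 < 8 π² - 16 π`: there is a smooth embedding `F₀` of the sphere `S²` into `ℝ³` with
`∫ |H|² dM < 16 π + 28.63` (computed with any choice of the frames `e` and `b`, and such frames
exist) such that the mean curvature flow starting at `F₀` does not shrink to a point. -/
theorem result :
    (2863 / 100 : ℝ) < 8 * Real.pi ^ 2 - 16 * Real.pi ∧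
    ∃ F₀ : S → E,
      IsSmooth F₀ ∧ IsImmersion F₀ ∧ Function.Injective F₀ ∧
      (∃ e b : S → Fin 2 → E, ∀ x, IsFrame F₀ x (e x) ∧ IsONB x (b x)) ∧
      (∀ e b : S → Fin 2 → E, (∀ x, IsFrame F₀ x (e x) ∧ IsONB x (b x)) →
        energy F₀ e b < ENNReal.ofReal (16 * Real.pi + 2863 / 100)) ∧
      ∃ T₀ : ℝ, ∀ (T : ℝ) (F : ℝ → S → E), IsMCF F₀ T F → T ≤ T₀ ∧ ¬ ShrinksToPoint T F :=
  threshold

end Pool.Agent.Results.MP_ec58cd_gt.DumbbellBound
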